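import Mathlib

/-!
Arithmetic schemes, the elementary polynomials, and the formal properties of the groups
`H^i(X_ét, ℤ^c(n))` for negative weights `n` that are used.
-/

open MvPolynomial AlgebraicGeometry CategoryTheory

namespace Pool.Agent.K6.H18.Arith

/-- The elementary polynomials in the variables `ι`: `x_a - x_b x_c`, `x_a - (x_b + x_c)` and
`x_a - 1`, where `a`, `b`, `c` need not be distinct. -/
def Elem (ι : Type) : Set (MvPolynomial ι ℤ) :=
  {p | ∃ a b c : ι, p = X a - X b * X c ∨ p = X a - (X b + X c) ∨ p = X a - 1}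

/-- Arithmetic schemes: separated and of finite type over `Spec ℤ`. -/
def IsArithmetic (X : Scheme.{0}) : Prop :=
  ∃ f : X ⟶ Spec (CommRingCat.of ℤ), IsSeparated f ∧ LocallyOfFiniteType f ∧ QuasiCompact f

/-- The published properties of the groups `H X n i = H^i(X_ét, ℤ^c(n))`, `n < 0`, that are used:
isomorphic schemes have isomorphic groups; the localization sequence of a closed subscheme `Z` of an
arithmetic scheme `X` with open complement `U`; and the formula for the affine line,
`H^i((𝔸¹_X)_ét, ℤ^c(n)) = H^(i+2)(X_ét, ℤ^c(n-1))`. -/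
structure IsCycleTheory (H : Scheme.{0} → ℤ → ℤ → Type) [∀ X n i, AddCommGroup (H X n i)] :
    Prop where
  iso : ∀ {X Y : Scheme.{0}}, (X ≅ Y) → ∀ n i : ℤ, Nonempty (H X n i ≃+ H Y n i)
  localization : ∀ {Z X U : Scheme.{0}} (i : Z ⟶ X) (j : U ⟶ X) [IsClosedImmersion i]
    [IsOpenImmersion j], IsArithmetic X → Set.range j = (Set.range i)ᶜ → ∀ n : ℤ, n < 0 →
    ∃ (a : ∀ k, H Z n k →+ H X n k) (b : ∀ k, H X n k →+ H U n k)
      (c : ∀ k, H U n k →+ H Z n (k + 1)),
      (∀ k, Function.Exact (a k) (b k)) ∧ (∀ k, Function.Exact (b k) (c k)) ∧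
      (∀ k, Function.Exact (c k) (a (k + 1)))
  line : ∀ X : Scheme.{0}, IsArithmetic X → ∀ n : ℤ, n < 0 → ∀ i : ℤ,
    Nonempty (H (AffineSpace PUnit X) n i ≃+ H X (n - 1) (i + 2))

end Pool.Agent.K6.H18.Arith
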