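import Pool.Agent.K6.H18.Arith.Pres

/-!
Dévissage: a property of arithmetic schemes compatible with closed-open decompositions holds for
all of them as soon as it holds for the complements in affine spaces over `ℤ` of finite unions of
elementary hypersurfaces.
-/

open MvPolynomial AlgebraicGeometry CategoryTheory

namespace Pool.Agent.K6.H18.Arith

lemma IsArithmetic.comp {X Y : Scheme.{0}} (hY : IsArithmetic Y) (g : X ⟶ Y) [IsSeparated g]
    [LocallyOfFiniteType g] [QuasiCompact g] : IsArithmetic X := by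
  obtain ⟨f, h1, h2, h3⟩ := hY
  exact ⟨g ≫ f, inferInstance, inferInstance, inferInstance⟩

lemma IsArithmetic.closed {X Y : Scheme.{0}} (hY : IsArithmetic Y) (g : X ⟶ Y)
    [IsClosedImmersion g] : IsArithmetic X := by
  have : LocallyOfFiniteType g := inferInstance
  exact hY.comp g

lemma IsArithmetic.compactSpace {X : Scheme.{0}} (hX : IsArithmetic X) : CompactSpace X := by
  obtain ⟨f, h1, h2, h3⟩ := hX
  exact QuasiCompact.compactSpace_of_compactSpace f

lemma quasiCompact_of_compact {X : Scheme.{0}} [CompactSpace X]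
    (f : X ⟶ Spec (CommRingCat.of ℤ)) : QuasiCompact f := by
  exact quasiCompact_of_compactSpace f

lemma IsArithmetic.opens {X : Scheme.{0}} (hX : IsArithmetic X) (U : X.Opens)
    (hU : IsCompact (U : Set X)) : IsArithmetic U := by
  obtain ⟨f, h1, h2, h3⟩ := hX
  have : CompactSpace U := isCompact_iff_compactSpace.mp hU
  exact ⟨U.ι ≫ f, inferInstance, inferInstance, quasiCompact_of_compact _⟩

lemma isArithmetic_Spec (A : Type) [CommRing A] (hA : Algebra.FiniteType ℤ A) :
    IsArithmetic (Spec (CommRingCat.of A)) := by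
  refine ⟨Spec.map (CommRingCat.ofHom (algebraMap ℤ A)), inferInstance, ?_, inferInstance⟩
  rw [HasRingHomProperty.Spec_iff (P := @LocallyOfFiniteType)]
  exact RingHom.finiteType_algebraMap.mpr hA

lemma finiteType_of_isArithmetic {A : CommRingCat.{0}} (h : IsArithmetic (Spec A)) :
    Algebra.FiniteType ℤ A := by
  obtain ⟨f, -, h2, -⟩ := h
  obtain ⟨φ, rfl⟩ := Spec.map_surjective f
  rw [HasRingHomProperty.Spec_iff (P := @LocallyOfFiniteType)] at h2
  have : φ.hom = algebraMap ℤ A := RingHom.ext_int _ _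
  rw [this] at h2
  exact RingHom.finiteType_algebraMap.mp h2

/-- A property of schemes with the two-out-of-three behaviour used in the dévissage. -/
structure Devissable (P : Scheme.{0} → Prop) : Prop where
  iso : ∀ {X Y : Scheme.{0}}, (X ≅ Y) → P X → P Y
  glue : ∀ {Z X U : Scheme.{0}} (i : Z ⟶ X) (j : U ⟶ X) [IsClosedImmersion i]
    [IsOpenImmersion j], IsArithmetic X → Set.range j = (Set.range i)ᶜ → P Z → P U → P X
  cut : ∀ {Z X U : Scheme.{0}} (i : Z ⟶ X) (j : U ⟶ X) [IsClosedImmersion i]
    [IsOpenImmersion j], IsArithmetic X → Set.range j = (Set.range i)ᶜ → P X → P U → P Z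

variable {P : Scheme.{0} → Prop}

/-- The basic open subscheme `D(h)` of `Spec A`. -/
noncomputable def D (A : Type) [CommRing A] (h : A) : Scheme.{0} :=
  Scheme.Opens.toScheme (X := Spec (CommRingCat.of A)) (PrimeSpectrum.basicOpen h)

/-- Passing to a principal quotient, inside a basic open subscheme. -/
lemma Devissable.quotient (hP : Devissable P) {A B : Type} [CommRing A] [CommRing B]
    (hA : Algebra.FiniteType ℤ A) (φ : A →+* B) (hφ : Function.Surjective φ) (e : A)
    (hker : PrimeSpectrum.zeroLocus (RingHom.ker φ : Set A) = PrimeSpectrum.zeroLocus {e}) (h : A)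
    (h1 : P (D A h)) (h2 : P (D A (h * e))) : P (D B (φ h)) := by
  let i : Spec (CommRingCat.of B) ⟶ Spec (CommRingCat.of A) := Spec.map (CommRingCat.ofHom φ)
  have hi : IsClosedImmersion i := IsClosedImmersion.spec_of_surjective _ hφ
  let U : (Spec (CommRingCat.of A)).Opens := PrimeSpectrum.basicOpen h
  let V : (Spec (CommRingCat.of A)).Opens := PrimeSpectrum.basicOpen (h * e)
  have hVU : V ≤ U := PrimeSpectrum.basicOpen_mul_le_left h e
  have hW : D B (φ h) = (i ⁻¹ᵁ U).toScheme := rfl
  rw [hW]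
  have hU : IsArithmetic U.toScheme :=
    (isArithmetic_Spec A hA).opens U (PrimeSpectrum.isCompact_basicOpen h)
  refine hP.cut (i ∣_ U) ((Spec (CommRingCat.of A)).homOfLE hVU) hU ?_ h1 h2
  have hri : ∀ x : Spec (CommRingCat.of A), x ∈ Set.range i ↔ e ∈ x.asIdeal := by
    intro x
    have : Set.range i = PrimeSpectrum.zeroLocus (RingHom.ker φ : Set A) :=
      range_comap_of_surjective _ φ hφ
    rw [this, hker]
    exact (PrimeSpectrum.mem_zeroLocus _ _).trans Set.singleton_subset_iff
  ext x
  have hx1 : x ∈ Set.range (i ∣_ U) ↔ e ∈ (U.ι x).asIdeal := by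
    rw [← hri]
    constructor
    · rintro ⟨y, rfl⟩
      exact ⟨(i ⁻¹ᵁ U).ι y, by
        rw [← Scheme.Hom.comp_apply, ← Scheme.Hom.comp_apply, morphismRestrict_ι]⟩
    · rintro ⟨y, hy⟩
      have hyU : y ∈ i ⁻¹ᵁ U := by
        change i y ∈ U
        rw [hy]; exact x.2
      exact ⟨(⟨y, hyU⟩ : (i ⁻¹ᵁ U).toScheme),
        Subtype.ext ((morphismRestrict_base_coe i U ⟨y, hyU⟩).trans hy)⟩
  have hx2 : x ∈ Set.range ((Spec (CommRingCat.of A)).homOfLE hVU) ↔ U.ι x ∈ V := by
    constructor
    · rintro ⟨y, rfl⟩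
      rw [← Scheme.Hom.comp_apply, Scheme.homOfLE_ι]
      exact y.2
    · intro hx
      have hy : U.ι ((Spec (CommRingCat.of A)).homOfLE hVU (⟨U.ι x, hx⟩ : V.toScheme)) =
          U.ι x := by
        have := congr($((Spec (CommRingCat.of A)).homOfLE_ι hVU) (⟨U.ι x, hx⟩ : V.toScheme))
        exact this
      exact ⟨_, U.ι.injective hy⟩
  rw [hx2, Set.mem_compl_iff, hx1]
  have hxU : h ∉ (U.ι x).asIdeal := x.2
  constructor
  · intro hx he
    exact hx (Ideal.mul_mem_left _ _ he)
  · intro he hx
    exact ((U.ι x).isPrime.mem_or_mem hx).elim hxU he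

/-- `D(h)` is compatible with ring isomorphisms. -/
lemma Devissable.congr (hP : Devissable P) {A B : Type} [CommRing A] [CommRing B] (σ : A ≃+* B)
    (h : A) (h1 : P (D A h)) : P (D B (σ h)) := by
  let i : Spec (CommRingCat.of B) ⟶ Spec (CommRingCat.of A) :=
    Spec.map (CommRingCat.ofHom (σ : A →+* B))
  have hi : IsIso i := by
    have : IsIso (CommRingCat.ofHom (σ : A →+* B)) := σ.toCommRingCatIso.isIso_hom
    infer_instance
  let U : (Spec (CommRingCat.of A)).Opens := PrimeSpectrum.basicOpen h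
  have hW : D B (σ h) = (i ⁻¹ᵁ U).toScheme := rfl
  rw [hW]
  exact hP.iso (asIso (i ∣_ U)).symm h1

lemma Devissable.spec_of_D (hP : Devissable P) {A : Type} [CommRing A] (h1 : P (D A 1)) :
    P (Spec (CommRingCat.of A)) := by
  have : (PrimeSpectrum.basicOpen (1 : A) : (Spec (CommRingCat.of A)).Opens) = ⊤ :=
    PrimeSpectrum.basicOpen_one
  exact hP.iso (Scheme.isoOfEq _ this ≪≫ Scheme.topIso _) h1

lemma finiteType_quotient {m : ℕ} (I : Ideal (MvPolynomial (Fin m) ℤ)) :
    Algebra.FiniteType ℤ (MvPolynomial (Fin m) ℤ ⧸ I) := by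
  have h1 : (C : ℤ →+* MvPolynomial (Fin m) ℤ).FiniteType :=
    RingHom.finiteType_algebraMap.mpr (inferInstanceAs (Algebra.FiniteType ℤ (MvPolynomial _ ℤ)))
  have h2 := h1.comp_surjective (g := Ideal.Quotient.mk I) Ideal.Quotient.mk_surjective
  have h3 : (Ideal.Quotient.mk I).comp C = algebraMap ℤ (MvPolynomial (Fin m) ℤ ⧸ I) :=
    RingHom.ext_int _ _
  rw [h3] at h2
  exact RingHom.finiteType_algebraMap.mp h2

/-- The inductive statement: all basic opens of `Spec (R / I)` defined by products of elementary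
polynomials have the property. -/
def T (P : Scheme.{0} → Prop) {m : ℕ} (I : Ideal (MvPolynomial (Fin m) ℤ)) : Prop :=
  ∀ h ∈ Submonoid.closure (Elem (Fin m)),
    P (D (MvPolynomial (Fin m) ℤ ⧸ I) (Ideal.Quotient.mk I h))

lemma Devissable.T_sup (hP : Devissable P) {m : ℕ} {I : Ideal (MvPolynomial (Fin m) ℤ)}
    (hI : T P I) {e : MvPolynomial (Fin m) ℤ} (he : e ∈ Elem (Fin m)) :
    T P (Ideal.span {e} ⊔ I) := by
  intro h hh
  have hle : I ≤ Ideal.span {e} ⊔ I := le_sup_right
  have h2 : P (D (MvPolynomial (Fin m) ℤ ⧸ I)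
      (Ideal.Quotient.mk I h * Ideal.Quotient.mk I e)) := by
    rw [← map_mul]
    exact hI _ (mul_mem hh (Submonoid.subset_closure he))
  have := hP.quotient (A := MvPolynomial (Fin m) ℤ ⧸ I) (finiteType_quotient I)
    (Ideal.Quotient.factor hle) (Ideal.Quotient.factor_surjective hle)
    (Ideal.Quotient.mk I e) ?_ (Ideal.Quotient.mk I h) (hI h hh) h2
  · rwa [Ideal.Quotient.factor_mk] at this
  · rw [Ideal.Quotient.factor_ker, Ideal.map_sup, Ideal.map_span, Ideal.map_quotient_self,
      sup_bot_eq, Set.image_singleton, PrimeSpectrum.zeroLocus_span]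

lemma Devissable.T_span (hP : Devissable P) {m : ℕ}
    (h0 : ∀ h ∈ Submonoid.closure (Elem (Fin m)), P (D (MvPolynomial (Fin m) ℤ) h))
    {E : Set (MvPolynomial (Fin m) ℤ)} (hE : E ⊆ Elem (Fin m)) : T P (Ideal.span E) := by
  have hfin := (Elem.finite (Fin m)).subset hE
  induction E, hfin using Set.Finite.induction_on with
  | empty =>
    rw [Ideal.span_empty]
    intro h hh
    exact hP.congr (RingEquiv.quotientBot (MvPolynomial (Fin m) ℤ)).symm h (h0 h hh)
  | insert _ _ ih =>
    rw [Ideal.span_insert]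
    exact hP.T_sup (ih ((Set.subset_insert _ _).trans hE)) (hE (Set.mem_insert _ _))

/-- The affine case. -/
lemma Devissable.affine (hP : Devissable P)
    (h0 : ∀ (m : ℕ), ∀ h ∈ Submonoid.closure (Elem (Fin m)), P (D (MvPolynomial (Fin m) ℤ) h))
    (A : Type) [CommRing A] (hA : Algebra.FiniteType ℤ A) : P (Spec (CommRingCat.of A)) := by
  obtain ⟨m, E, hE, ⟨σ⟩⟩ := exists_pres A hA
  have h1 := hP.congr σ _ (hP.T_span (h0 m) hE 1 (one_mem _))
  rw [map_one, map_one] at h1
  exact hP.spec_of_D h1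

lemma Devissable.affine' (hP : Devissable P)
    (h0 : ∀ (m : ℕ), ∀ h ∈ Submonoid.closure (Elem (Fin m)), P (D (MvPolynomial (Fin m) ℤ) h))
    (X : Scheme.{0}) [IsAffine X] (hX : IsArithmetic X) : P X := by
  have hS : IsArithmetic (Spec Γ(X, ⊤)) := hX.comp X.isoSpec.inv
  exact hP.iso X.isoSpec.symm (hP.affine h0 Γ(X, ⊤) (finiteType_of_isArithmetic hS))

/-- The general case, by induction on the number of affine open subschemes needed. -/
theorem Devissable.all (hP : Devissable P)
    (h0 : ∀ (m : ℕ), ∀ h ∈ Submonoid.closure (Elem (Fin m)), P (D (MvPolynomial (Fin m) ℤ) h))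
    (X : Scheme.{0}) (hX : IsArithmetic X) : P X := by
  have key : ∀ (n : ℕ) (X : Scheme.{0}), IsArithmetic X → ∀ V : Fin n → X.Opens,
      (∀ i, IsAffineOpen (V i)) → (⨆ i, V i) = ⊤ → P X := by
    intro n
    induction n with
    | zero =>
      intro X hX V _ hV
      have : IsEmpty X := by
        rw [iSup_of_empty] at hV
        constructor
        intro x
        have : x ∈ (⊥ : X.Opens) := by rw [hV]; trivial
        exact this
      exact hP.affine' h0 X hX
    | succ n ih =>
      intro X hX V hV hcov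
      have hcl : IsClosed ((V 0 : Set X)ᶜ) := (V 0).isOpen.isClosed_compl
      let I := Scheme.IdealSheafData.vanishingIdeal (⟨(V 0 : Set X)ᶜ, hcl⟩ : TopologicalSpace.Closeds X)
      have hsupp : (I.support : Set X) = (V 0 : Set X)ᶜ :=
        Scheme.IdealSheafData.coe_support_vanishingIdeal _
      have hZ : P I.subscheme := by
        refine ih I.subscheme (hX.closed I.subschemeι) (fun k ↦ I.subschemeι ⁻¹ᵁ (V k.succ))
          (fun k ↦ (hV k.succ).preimage I.subschemeι) ?_
        rw [eq_top_iff]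
        intro x _
        have hx : I.subschemeι x ∈ (⨆ i, V i : X.Opens) := by rw [hcov]; trivial
        obtain ⟨i, hi⟩ := TopologicalSpace.Opens.mem_iSup.mp hx
        have hx0 : I.subschemeι x ∉ V 0 := by
          have : I.subschemeι x ∈ (I.support : Set X) := by
            rw [← Scheme.IdealSheafData.range_subschemeι]; exact ⟨x, rfl⟩
          rw [hsupp] at this
          exact this
        refine TopologicalSpace.Opens.mem_iSup.mpr ?_
        obtain rfl | ⟨k, rfl⟩ := Fin.eq_zero_or_eq_succ i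
        · exact absurd hi hx0
        · exact ⟨k, hi⟩
      have hU : P (V 0).toScheme := by
        have : IsAffine (V 0).toScheme := hV 0
        exact hP.affine' h0 _ (hX.opens _ (hV 0).isCompact)
      refine hP.glue I.subschemeι (V 0).ι hX ?_ hZ hU
      rw [Scheme.Opens.range_ι, Scheme.IdealSheafData.range_subschemeι, hsupp, compl_compl]
  have : CompactSpace X := hX.compactSpace
  obtain ⟨s, hs, hcov⟩ := (isCompact_iff_finite_and_eq_biUnion_affineOpens (U := (⊤ : X.Opens))).mp
    (by simpa using isCompact_univ)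
  have : Finite s := hs
  obtain ⟨n, ⟨e⟩⟩ := Finite.exists_equiv_fin s
  refine key n X hX (fun i ↦ ((e.symm i).1 : X.Opens)) (fun i ↦ (e.symm i).1.2) ?_
  rw [hcov, iSup_subtype', ← e.symm.iSup_comp]

end Pool.Agent.K6.H18.Arith
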