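import Pool.Agent.K6.H18.Arith.Dev

/-!
Finite generation in negative weights: reduction to weight `-1` and to complements of elementary
hypersurfaces in affine spaces over `ℤ`.
-/

open MvPolynomial AlgebraicGeometry CategoryTheory

namespace Pool.Agent.K6.H18.Arith

lemma fg_of_exact {A B C : Type} [AddCommGroup A] [AddCommGroup B] [AddCommGroup C]
    (a : A →+ B) (b : B →+ C) (h : Function.Exact a b) (hA : AddGroup.FG A) (hC : AddGroup.FG C) :
    AddGroup.FG B := by
  rw [← Module.Finite.iff_addGroup_fg] at hA hC ⊢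
  have h1 : IsNoetherian ℤ A := inferInstance
  have h2 : IsNoetherian ℤ C := inferInstance
  have h3 : LinearMap.range a.toIntLinearMap = LinearMap.ker b.toIntLinearMap := by
    ext x
    exact (h x).symm
  have := isNoetherian_of_range_eq_ker a.toIntLinearMap b.toIntLinearMap h3
  infer_instance

variable {H : Scheme.{0} → ℤ → ℤ → Type} [∀ X n i, AddCommGroup (H X n i)]

lemma IsCycleTheory.devissable (hH : IsCycleTheory H) {n : ℤ} (hn : n < 0) :
    Devissable (fun X ↦ ∀ i, AddGroup.FG (H X n i)) where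
  iso {X Y} e h i := by
    obtain ⟨σ⟩ := hH.iso e n i
    have := h i
    exact AddGroup.fg_of_surjective (f := σ.toAddMonoidHom) σ.surjective
  glue i j _ _ hX hr hZ hU k := by
    obtain ⟨a, b, c, h1, h2, h3⟩ := hH.localization i j hX hr n hn
    exact fg_of_exact _ _ (h1 k) (hZ k) (hU k)
  cut {Z X U} i j _ _ hX hr hX' hU k := by
    obtain ⟨a, b, c, h1, h2, h3⟩ := hH.localization i j hX hr n hn
    obtain ⟨k, rfl⟩ : ∃ l, l + 1 = k := ⟨k - 1, by ring⟩
    exact fg_of_exact _ _ (h3 k) (hU k) (hX' (k + 1))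

lemma IsArithmetic.line {X : Scheme.{0}} (hX : IsArithmetic X) :
    IsArithmetic (AffineSpace PUnit X) :=
  hX.comp (AffineSpace PUnit X ↘ X)

lemma isArithmetic_away {m : ℕ} (f : MvPolynomial (Fin m) ℤ) :
    IsArithmetic (Spec (CommRingCat.of (Localization.Away f))) := by
  have h1 : (C : ℤ →+* MvPolynomial (Fin m) ℤ).FiniteType :=
    RingHom.finiteType_algebraMap.mpr (inferInstanceAs (Algebra.FiniteType ℤ (MvPolynomial _ ℤ)))
  have h2 : (algebraMap (MvPolynomial (Fin m) ℤ) (Localization.Away f)).FiniteType :=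
    RingHom.finiteType_algebraMap.mpr (IsLocalization.finiteType_of_monoid_fg (.powers f) _)
  refine ⟨Spec.map (CommRingCat.ofHom
    ((algebraMap (MvPolynomial (Fin m) ℤ) (Localization.Away f)).comp C)), inferInstance, ?_,
    inferInstance⟩
  rw [HasRingHomProperty.Spec_iff (P := @LocallyOfFiniteType)]
  exact h2.comp h1

/-- All arithmetic schemes in a fixed weight. -/
theorem weight_iff (hH : IsCycleTheory H) {n : ℤ} (hn : n < 0) :
    (∀ X : Scheme.{0}, IsArithmetic X → ∀ i, AddGroup.FG (H X n i)) ↔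
      ∀ (m : ℕ) (l : List (MvPolynomial (Fin m) ℤ)), (∀ p ∈ l, p ∈ Elem (Fin m)) → ∀ i,
        AddGroup.FG (H (Spec (CommRingCat.of (Localization.Away l.prod))) n i) := by
  constructor
  · intro h m l _
    exact h _ (isArithmetic_away _)
  · intro h X hX
    refine (hH.devissable hn).all ?_ X hX
    intro m p hp
    obtain ⟨l, hl, rfl⟩ := Submonoid.exists_list_of_mem_closure hp
    exact (hH.devissable hn).iso (basicOpenIsoSpecAway (R := CommRingCat.of _) l.prod).symm
      (h m l hl)

/-- All negative weights follow from the weight `-1`. -/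
theorem all_weights (hH : IsCycleTheory H)
    (h : ∀ X : Scheme.{0}, IsArithmetic X → ∀ i, AddGroup.FG (H X (-1) i)) (n : ℤ) (hn : n < 0) :
    ∀ X : Scheme.{0}, IsArithmetic X → ∀ i, AddGroup.FG (H X n i) := by
  obtain ⟨k, rfl⟩ : ∃ k : ℕ, n = -1 - (k : ℤ) := ⟨(-1 - n).toNat, by omega⟩
  clear hn
  induction k with
  | zero => simpa using h
  | succ k ih =>
    intro X hX i
    obtain ⟨σ⟩ := hH.line X hX (-1 - (k : ℤ)) (by omega) (i - 2)
    have h1 := ih _ hX.line (i - 2)
    have h2 : AddGroup.FG (H X (-1 - (k : ℤ) - 1) (i - 2 + 2)) :=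
      AddGroup.fg_of_surjective (f := σ.toAddMonoidHom) σ.surjective
    rw [show -1 - ((k + 1 : ℕ) : ℤ) = -1 - (k : ℤ) - 1 by push_cast; ring,
      show i = i - 2 + 2 by ring]
    exact h2

end Pool.Agent.K6.H18.Arith
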