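import Pool.Agent.K6.H18.Arith.Defs

/-!
Every commutative ring of finite type over `ℤ` is the quotient of a polynomial ring over `ℤ` by an
ideal generated by polynomials of the three shapes `x_a - x_b x_c`, `x_a - (x_b + x_c)`, `x_a - 1`.
-/

open MvPolynomial

namespace Pool.Agent.K6.H18.Arith

lemma Elem.mul {ι : Type} (a b c : ι) : (X a - X b * X c : MvPolynomial ι ℤ) ∈ Elem ι :=
  ⟨a, b, c, Or.inl rfl⟩

lemma Elem.add {ι : Type} (a b c : ι) : (X a - (X b + X c) : MvPolynomial ι ℤ) ∈ Elem ι :=
  ⟨a, b, c, Or.inr (Or.inl rfl)⟩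

lemma Elem.one {ι : Type} (a : ι) : (X a - 1 : MvPolynomial ι ℤ) ∈ Elem ι :=
  ⟨a, a, a, Or.inr (Or.inr rfl)⟩

lemma Elem.rename {ι κ : Type} (j : ι → κ) {p : MvPolynomial ι ℤ} (hp : p ∈ Elem ι) :
    MvPolynomial.rename j p ∈ Elem κ := by
  obtain ⟨a, b, c, h | h | h⟩ := hp
  · subst h; simpa using Elem.mul (j a) (j b) (j c)
  · subst h; simpa using Elem.add (j a) (j b) (j c)
  · subst h; simpa using Elem.one (j a)

lemma Elem.finite (ι : Type) [Finite ι] : (Elem ι).Finite := by
  have h : Elem ι ⊆ (Set.range fun t : ι × ι × ι ↦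
        (X t.1 - X t.2.1 * X t.2.2 : MvPolynomial ι ℤ)) ∪
      ((Set.range fun t : ι × ι × ι ↦ (X t.1 - (X t.2.1 + X t.2.2) : MvPolynomial ι ℤ)) ∪
      (Set.range fun t : ι ↦ (X t - 1 : MvPolynomial ι ℤ))) := by
    rintro p ⟨a, b, c, h | h | h⟩
    · exact Or.inl ⟨(a, b, c), h.symm⟩
    · exact Or.inr (Or.inl ⟨(a, b, c), h.symm⟩)
    · exact Or.inr (Or.inr ⟨a, h.symm⟩)
  exact ((Set.finite_range _).union ((Set.finite_range _).union (Set.finite_range _))).subset h

/-- Evaluation of integer polynomials at `v`. -/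
noncomputable def ev {ι A : Type} [CommRing A] (v : ι → A) : MvPolynomial ι ℤ →+* A :=
  eval₂Hom (Int.castRingHom A) v

@[simp] lemma ev_X {ι A : Type} [CommRing A] (v : ι → A) (i : ι) : ev v (X i) = v i := by
  simp [ev]

@[simp] lemma ev_rename {ι κ A : Type} [CommRing A] (v : κ → A) (j : ι → κ)
    (p : MvPolynomial ι ℤ) : ev v (rename j p) = ev (v ∘ j) p := by
  simp [ev, eval₂_rename]

lemma ev_self {ι : Type} (p : MvPolynomial ι ℤ) : ev X p = p := by
  have : ev (X : ι → MvPolynomial ι ℤ) = RingHom.id _ := by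
    apply MvPolynomial.ringHom_ext
    · intro n; simp [ev]
    · intro i; simp
  rw [this, RingHom.id_apply]

/-- `v : ι → A` is an elementary presentation of `A`: the `v a` generate `A` and the relations
between them are generated by elementary ones. -/
def IsPres {ι A : Type} [CommRing A] (v : ι → A) : Prop :=
  Function.Surjective (ev v) ∧ ∃ E ⊆ Elem ι, RingHom.ker (ev v) = Ideal.span E

/-- Adding one variable together with one relation expressing it through the others. -/
lemma IsPres.option {ι A : Type} [CommRing A] {v : ι → A} (hv : IsPres v)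
    (t : MvPolynomial ι ℤ) (e : MvPolynomial (Option ι) ℤ) (he : e ∈ Elem (Option ι))
    (hte : Ideal.span {e} = Ideal.span {X none - rename some t}) :
    IsPres (fun o : Option ι ↦ o.elim (ev v t) v) := by
  obtain ⟨hs, E, hE, hker⟩ := hv
  set w : Option ι → A := fun o ↦ o.elim (ev v t) v with hw
  have hsome : ∀ p : MvPolynomial ι ℤ, ev w (rename some p) = ev v p := fun p ↦ by
    rw [ev_rename]; rfl
  refine ⟨fun a ↦ ?_, insert e (rename some '' E), ?_, ?_⟩
  · obtain ⟨p, rfl⟩ := hs a
    exact ⟨rename some p, hsome p⟩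
  · rintro p (rfl | ⟨q, hq, rfl⟩)
    · exact he
    · exact Elem.rename _ (hE hq)
  · have hJ' : Ideal.span (insert e (rename some '' E)) =
        Ideal.span (insert (X none - rename some t) (rename some '' E)) := by
      rw [Ideal.span_insert, Ideal.span_insert, hte]
    rw [hJ']
    set J : Ideal (MvPolynomial (Option ι) ℤ) :=
      Ideal.span (insert (X none - rename some t) (rename some '' E)) with hJ
    have hle : J ≤ RingHom.ker (ev w) := by
      rw [hJ, Ideal.span_le]
      rintro r (rfl | ⟨q, hq, rfl⟩)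
      · change ev w _ = 0
        rw [map_sub, hsome, ev_X, hw]
        simp
      · change ev w _ = 0
        rw [hsome]
        have : q ∈ RingHom.ker (ev v) := by
          rw [hker]; exact Ideal.subset_span hq
        exact this
    apply le_antisymm _ hle
    intro p hp
    have hp : ev w p = 0 := hp
    -- eliminate the new variable
    let ε : MvPolynomial (Option ι) ℤ →ₐ[ℤ] MvPolynomial ι ℤ :=
      aeval fun o : Option ι ↦ o.elim t X
    have h1 : ∀ q : MvPolynomial (Option ι) ℤ, q - rename some (ε q) ∈ J := by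
      intro q
      have key : (Ideal.Quotient.mkₐ ℤ J) =
          ((Ideal.Quotient.mkₐ ℤ J).comp (rename some)).comp ε := by
        apply MvPolynomial.algHom_ext
        rintro (_ | a)
        · simp only [AlgHom.comp_apply, ε, aeval_X, Option.elim_none]
          rw [Ideal.Quotient.mkₐ_eq_mk, Ideal.Quotient.eq]
          exact Ideal.subset_span (Set.mem_insert _ _)
        · simp only [AlgHom.comp_apply, ε, aeval_X, Option.elim_some, rename_X]
      have := DFunLike.congr_fun key q
      simp only [AlgHom.comp_apply, Ideal.Quotient.mkₐ_eq_mk] at this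
      exact (Ideal.Quotient.eq).mp this
    have h2 : ev w (rename some (ε p)) = 0 := by
      have h3 : ev w (p - rename some (ε p)) = 0 := hle (h1 p)
      rw [map_sub, hp, zero_sub, neg_eq_zero] at h3
      exact h3
    rw [hsome] at h2
    have h4 : ε p ∈ Ideal.span E := by
      rw [← hker]; exact h2
    have h5 : rename some (ε p) ∈ J := by
      have : Ideal.map (rename some : MvPolynomial ι ℤ →ₐ[ℤ] _) (Ideal.span E) ≤ J := by
        rw [Ideal.map_span, hJ]
        exact Ideal.span_mono (Set.subset_insert _ _)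
      exact this (Ideal.mem_map_of_mem _ h4)
    have := J.add_mem (h1 p) h5
    simpa using this

/-- `w` extends `v`. -/
def Extends {ι κ A : Type} (v : ι → A) (w : κ → A) : Prop := ∃ j : ι → κ, ∀ a, w (j a) = v a

lemma Extends.refl {ι A : Type} (v : ι → A) : Extends v v := ⟨id, fun _ ↦ rfl⟩

lemma Extends.trans {ι κ μ A : Type} {v : ι → A} {w : κ → A} {u : μ → A} (h : Extends v w)
    (h' : Extends w u) : Extends v u := by
  obtain ⟨j, hj⟩ := h
  obtain ⟨k, hk⟩ := h'
  exact ⟨k ∘ j, fun a ↦ by rw [Function.comp_apply, hk, hj]⟩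

lemma Extends.mem {ι κ A : Type} {v : ι → A} {w : κ → A} (h : Extends v w) {a : A}
    (ha : a ∈ Set.range v) : a ∈ Set.range w := by
  obtain ⟨j, hj⟩ := h
  obtain ⟨b, rfl⟩ := ha
  exact ⟨j b, hj b⟩

lemma extends_option {ι A : Type} (v : ι → A) (a : A) :
    Extends v (fun o : Option ι ↦ o.elim a v) := ⟨some, fun _ ↦ rfl⟩

/-- `a` can be added to the generators of every finite elementary presentation extending `v₀`. -/
def Addable {ι₀ A : Type} [CommRing A] (v₀ : ι₀ → A) (a : A) : Prop :=
  ∀ (ι : Type) [Finite ι] (v : ι → A), IsPres v → Extends v₀ v →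
    ∃ (κ : Type) (_ : Finite κ) (w : κ → A), IsPres w ∧ Extends v w ∧ a ∈ Set.range w

section
variable {ι₀ A : Type} [CommRing A] {v₀ : ι₀ → A}

lemma addable_var (i : ι₀) : Addable v₀ (v₀ i) := by
  intro ι _ v hv hv₀
  exact ⟨ι, inferInstance, v, hv, Extends.refl v, hv₀.mem ⟨i, rfl⟩⟩

lemma addable_one : Addable v₀ (1 : A) := by
  intro ι _ v hv _
  refine ⟨Option ι, inferInstance, _, hv.option 1 _ (Elem.one none) ?_, extends_option _ _,
    none, by simp⟩
  simp

lemma addable_zero : Addable v₀ (0 : A) := by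
  intro ι _ v hv _
  refine ⟨Option ι, inferInstance, _, hv.option 0 _ (Elem.add none none none) ?_,
    extends_option _ _, none, by simp⟩
  rw [map_zero, sub_zero, show (X none - (X none + X none) : MvPolynomial (Option ι) ℤ) =
    -X none by ring, Ideal.span_singleton_neg]

lemma Addable.add {a b : A} (ha : Addable v₀ a) (hb : Addable v₀ b) :
    Addable v₀ (a + b) := by
  intro ι _ v hv h₀
  obtain ⟨κ, _, w, hw, hvw, haw⟩ := ha ι v hv h₀
  obtain ⟨μ, _, u, hu, hwu, y, rfl⟩ := hb κ w hw (h₀.trans hvw)
  obtain ⟨x, rfl⟩ := hwu.mem haw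
  refine ⟨Option μ, inferInstance, _, hu.option (X x + X y) _
    (Elem.add none (some x) (some y)) ?_,
    (hvw.trans hwu).trans (extends_option _ _), none, by simp⟩
  simp

lemma Addable.mul {a b : A} (ha : Addable v₀ a) (hb : Addable v₀ b) :
    Addable v₀ (a * b) := by
  intro ι _ v hv h₀
  obtain ⟨κ, _, w, hw, hvw, haw⟩ := ha ι v hv h₀
  obtain ⟨μ, _, u, hu, hwu, y, rfl⟩ := hb κ w hw (h₀.trans hvw)
  obtain ⟨x, rfl⟩ := hwu.mem haw
  refine ⟨Option μ, inferInstance, _, hu.option (X x * X y) _
    (Elem.mul none (some x) (some y)) ?_,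
    (hvw.trans hwu).trans (extends_option _ _), none, by simp⟩
  simp

lemma Addable.neg {a : A} (ha : Addable v₀ a) : Addable v₀ (-a) := by
  intro ι _ v hv h₀
  obtain ⟨κ, _, w, hw, hvw, haw⟩ := ha ι v hv h₀
  obtain ⟨μ, _, u, hu, hwu, z, hz⟩ := addable_zero κ w hw (h₀.trans hvw)
  obtain ⟨x, rfl⟩ := hwu.mem haw
  refine ⟨Option μ, inferInstance, _, hu.option (X z - X x) _
    (Elem.add (some z) none (some x)) ?_,
    (hvw.trans hwu).trans (extends_option _ _), none, by simp [hz]⟩
  rw [map_sub, rename_X, rename_X, show (X (some z) - (X none + X (some x)) :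
    MvPolynomial (Option μ) ℤ) = -(X none - (X (some z) - X (some x))) by ring,
    Ideal.span_singleton_neg]

lemma addable_int (n : ℤ) : Addable v₀ (n : A) := by
  induction n using Int.induction_on with
  | zero => simpa using addable_zero
  | succ n ih => push_cast at ih ⊢; exact ih.add addable_one
  | pred n ih =>
    have := ih.add (addable_one (v₀ := v₀)).neg
    push_cast at this ⊢
    simpa [sub_eq_add_neg] using this

lemma addable_all (h : Function.Surjective (ev v₀)) (a : A) : Addable v₀ a := by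
  obtain ⟨p, rfl⟩ := h a
  induction p using MvPolynomial.induction_on with
  | C n =>
    have : ev v₀ (C n) = (n : A) := by simp [ev]
    rw [this]; exact addable_int n
  | add p q hp hq => rw [map_add]; exact hp.add hq
  | mul_X p i hp => rw [map_mul, ev_X]; exact hp.mul (addable_var i)

/-- Finitely many elements can be added. -/
lemma exists_pres_of_finite (hv : IsPres v₀) [Finite ι₀] {s : Set A} (hs : s.Finite) :
    ∃ (κ : Type) (_ : Finite κ) (w : κ → A), IsPres w ∧ s ⊆ Set.range w := by
  have : ∃ (κ : Type) (_ : Finite κ) (w : κ → A), IsPres w ∧ Extends v₀ w ∧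
      s ⊆ Set.range w := by
    induction s, hs using Set.Finite.induction_on with
    | empty => exact ⟨ι₀, inferInstance, v₀, hv, Extends.refl _, Set.empty_subset _⟩
    | insert _ _ ih =>
      obtain ⟨κ, _, w, hw, h₀, hsw⟩ := ih
      obtain ⟨μ, _, u, hu, hwu, hau⟩ := addable_all hv.1 _ κ w hw h₀
      exact ⟨μ, inferInstance, u, hu, h₀.trans hwu,
        Set.insert_subset hau fun x hx ↦ hwu.mem (hsw hx)⟩
  obtain ⟨κ, i, w, h1, _, h2⟩ := this
  exact ⟨κ, i, w, h1, h2⟩

end

lemma IsPres.reindex {κ μ A : Type} [CommRing A] {w : κ → A} (hw : IsPres w) (e : κ ≃ μ) :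
    IsPres (w ∘ e.symm) := by
  obtain ⟨hsur, E, hE, hker⟩ := hw
  have hcomp : ∀ p, ev (w ∘ e.symm) (rename e p) = ev w p := fun p ↦ by
    rw [ev_rename]; congr 2; ext i; simp
  have hinv : ∀ p : MvPolynomial μ ℤ, rename e (rename e.symm p) = p := fun p ↦ by
    simp [rename_rename]
  have hinv' : ∀ p : MvPolynomial κ ℤ, rename e.symm (rename e p) = p := fun p ↦ by
    simp [rename_rename]
  refine ⟨fun a ↦ ?_, rename e '' E, ?_, ?_⟩
  · obtain ⟨p, rfl⟩ := hsur a
    exact ⟨rename e p, hcomp p⟩
  · rintro _ ⟨q, hq, rfl⟩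
    exact Elem.rename _ (hE hq)
  · apply le_antisymm
    · intro p hp
      have h1 : rename e.symm p ∈ RingHom.ker (ev w) := by
        rw [RingHom.mem_ker, ← hcomp, hinv]; exact hp
      rw [hker] at h1
      have h2 : Ideal.map (rename e : MvPolynomial κ ℤ →ₐ[ℤ] MvPolynomial μ ℤ) (Ideal.span E) ≤
          Ideal.span (rename e '' E) := by
        rw [Ideal.map_span]
      have := h2 (Ideal.mem_map_of_mem _ h1)
      rwa [hinv] at this
    · rw [Ideal.span_le]
      rintro _ ⟨q, hq, rfl⟩
      have h1 : q ∈ RingHom.ker (ev w) := by rw [hker]; exact Ideal.subset_span hq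
      rw [SetLike.mem_coe, RingHom.mem_ker, hcomp]; exact h1

/-- Every ring of finite type over `ℤ` has a finite elementary presentation. -/
theorem exists_pres (A : Type) [CommRing A] (hA : Algebra.FiniteType ℤ A) :
    ∃ (m : ℕ) (E : Set (MvPolynomial (Fin m) ℤ)), E ⊆ Elem (Fin m) ∧
      Nonempty ((MvPolynomial (Fin m) ℤ ⧸ Ideal.span E) ≃+* A) := by
  obtain ⟨n, f, hf⟩ := Algebra.FiniteType.iff_quotient_mvPolynomial''.mp hA
  -- the polynomial ring has an elementary presentation without relations
  have h0 : IsPres (X : Fin n → MvPolynomial (Fin n) ℤ) := by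
    refine ⟨fun p ↦ ⟨p, ev_self p⟩, ∅, Set.empty_subset _, ?_⟩
    rw [Ideal.span_empty, ← RingHom.injective_iff_ker_eq_bot]
    intro p q h
    rwa [ev_self, ev_self] at h
  obtain ⟨s, hs⟩ := (isNoetherianRing_iff_ideal_fg _).mp
    (inferInstance : IsNoetherianRing (MvPolynomial (Fin n) ℤ)) (RingHom.ker f.toRingHom)
  obtain ⟨κ, _, w, hw, hsw⟩ := exists_pres_of_finite h0 s.finite_toSet
  obtain ⟨m, ⟨e⟩⟩ := Finite.exists_equiv_fin κ
  obtain ⟨hsur, E, hE, hker⟩ := hw.reindex e
  have hsw' : (s : Set (MvPolynomial (Fin n) ℤ)) ⊆ Set.range (w ∘ e.symm) := by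
    intro x hx
    obtain ⟨i, rfl⟩ := hsw hx
    exact ⟨e i, by simp⟩
  set u : Fin m → MvPolynomial (Fin n) ℤ := w ∘ e.symm with hu
  -- the relations `x_k = x_k + x_k` for the variables whose value is in `s`
  let F : Set (MvPolynomial (Fin m) ℤ) := {p | ∃ k, u k ∈ s ∧ p = X k - (X k + X k)}
  refine ⟨m, E ∪ F, ?_, ⟨?_⟩⟩
  · rintro p (hp | ⟨k, _, rfl⟩)
    · exact hE hp
    · exact Elem.add k k k
  · let g : MvPolynomial (Fin m) ℤ →+* A := f.toRingHom.comp (ev u)
    have hg : Function.Surjective g := hf.comp hsur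
    have hgk : RingHom.ker g = Ideal.span (E ∪ F) := by
      apply le_antisymm
      · intro p hp
        have h1 : ev u p ∈ RingHom.ker f.toRingHom := hp
        rw [← hs] at h1
        -- lift the relation
        have h2 : Ideal.span (s : Set (MvPolynomial (Fin n) ℤ)) ≤
            Ideal.map (ev u) (Ideal.span F) := by
          rw [Ideal.span_le]
          intro x hx
          obtain ⟨k, rfl⟩ := hsw' hx
          have : (ev u) (-(X k - (X k + X k))) = u k := by
            simp
          rw [SetLike.mem_coe, ← this]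
          exact Ideal.mem_map_of_mem _ (neg_mem (Ideal.subset_span ⟨k, hx, rfl⟩))
        obtain ⟨q, hq, hq'⟩ := (Ideal.mem_map_iff_of_surjective _ hsur).mp (h2 h1)
        have h3 : p - q ∈ RingHom.ker (ev u) := by
          rw [RingHom.mem_ker, map_sub, sub_eq_zero]
          exact hq'.symm
        rw [hker] at h3
        rw [Ideal.span_union]
        have := Ideal.add_mem (Ideal.span E ⊔ Ideal.span F)
          (Ideal.mem_sup_left h3) (Ideal.mem_sup_right hq)
        simpa using this
      · rw [Ideal.span_le]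
        rintro p (hp | ⟨k, hk, rfl⟩)
        · have : ev u p = 0 := by
            have h4 : p ∈ RingHom.ker (ev u) := by
              rw [hker]; exact Ideal.subset_span hp
            exact h4
          change f (ev u p) = 0
          rw [this, map_zero]
        · change f (ev u _) = 0
          have h5 : u k ∈ RingHom.ker f.toRingHom := by
            rw [← hs]; exact Ideal.subset_span hk
          have h6 : f (u k) = 0 := h5
          simp [h6]
    exact (Ideal.quotEquivOfEq hgk.symm).trans (RingHom.quotientKerEquivOfSurjective hg)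

end Pool.Agent.K6.H18.Arith
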